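import Pool.Agent.Work.MP_25cd3b_gt.Gen.Length
import Pool.Agent.Work.MP_25cd3b_gt.NC.Defs
import Pool.Agent.Work.MP_25cd3b_gt.NC.Stmts

set_option autoImplicit false

/-!
# Comparison of the definitions of `Gen` with those of `M/Defs` and `NC/Defs`
-/

open MeasureTheory Set Filter Topology
open scoped ContDiff

namespace Pool.Agent.GM

open Pool.Agent.MLS (E ee)

/-- the form as a `MLS.Form` -/
def toF {n : ℕ} (g : Frm (E n)) : MLS.Form n := ⟨g.val, g.smooth, g.symm, g.nonneg⟩

/-- the `MLS.Form` as a form -/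
def ofF {n : ℕ} (g : MLS.Form n) : Frm (E n) := ⟨g.val, g.smooth, g.symm, g.nonneg⟩

@[simp] theorem toF_val {n : ℕ} (g : Frm (E n)) : (toF g).val = g.val := rfl

@[simp] theorem ofF_val {n : ℕ} (g : MLS.Form n) : (ofF g).val = g.val := rfl

@[simp] theorem toF_ofF {n : ℕ} (g : MLS.Form n) : toF (ofF g) = g := rfl

@[simp] theorem ofF_toF {n : ℕ} (g : Frm (E n)) : ofF (toF g) = g := rfl

theorem riem_iff {n : ℕ} (g : Frm (E n)) : MLS.Riem (toF g) ↔ Riem g := Iff.rfl

/-- derivatives of bilinear maps -/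
theorem fderiv_apply2 {V W' : Type} [NormedAddCommGroup V] [NormedSpace ℝ V]
    [NormedAddCommGroup W'] [NormedSpace ℝ W'] {F : V → V →L[ℝ] V →L[ℝ] W'} {x : V}
    (h : DifferentiableAt ℝ F x) (u v w : V) :
    fderiv ℝ (fun y => F y v w) x u = fderiv ℝ F x u v w := by
  have h1 := (h.hasFDerivAt.clm_apply (hasFDerivAt_const v x)).clm_apply (hasFDerivAt_const w x)
  rw [h1.fderiv]
  simp

theorem Frm.diff {V : Type} [NormedAddCommGroup V] [NormedSpace ℝ V] (g : Frm V) (x : V) :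
    DifferentiableAt ℝ g.val x := g.smooth.differentiable (by simp) x

theorem Frm.fd {V : Type} [NormedAddCommGroup V] [NormedSpace ℝ V] (g : Frm V) (x u v w : V) :
    fderiv ℝ (fun y => g.val y v w) x u = fderiv ℝ g.val x u v w :=
  fderiv_apply2 (g.diff x) u v w

theorem isGeo_iff {n : ℕ} (g : Frm (E n)) (c : ℝ → E n) : MLS.IsGeo (toF g) c ↔ IsGeo g c := by
  constructor
  · intro h
    refine ⟨h.smooth, fun t w => ?_⟩
    rw [g.fd]
    exact h.el t w
  · intro h
    refine ⟨h.smooth, fun t w => ?_⟩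
    have h1 := h.el t w
    rw [g.fd] at h1
    exact h1

theorem nrm_eq {n : ℕ} (g : Frm (E n)) (x v : E n) : MLS.nrm (toF g) x v = nrm g x v := rfl

theorem pathLen_iff {n : ℕ} (g : Frm (E n)) (x y : E n) (l : ℝ) :
    MLS.PathLen (toF g) x y l ↔ PathLen g x y l := by
  constructor
  · intro h
    induction h with
    | refl x => exact PathLen.refl x
    | cons c a b y l hc hab _ ih => exact PathLen.cons c a b y l hc hab ih
  · intro h
    induction h with
    | refl x => exact MLS.PathLen.refl x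
    | cons c a b y l hc hab _ ih => exact MLS.PathLen.cons c a b y l hc hab ih

theorem gd_eq {n : ℕ} (g : Frm (E n)) : MLS.gd (toF g) = gd g := by
  funext x y
  unfold MLS.gd gd
  congr 1
  ext l
  exact pathLen_iff g x y l

theorem L_eq {n : ℕ} {G : Type} [Group G] [MulAction G (E n)] (g : Frm (E n)) (a : G) :
    MLS.L (toF g) a = L g a := by
  unfold MLS.L L
  congr 1
  ext l
  exact exists_congr fun x => pathLen_iff g x (a • x) l

theorem minz_iff {n : ℕ} (g : Frm (E n)) : MLS.Minz (toF g) ↔ Minz g := by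
  unfold MLS.Minz Minz
  rw [gd_eq]
  exact forall_congr' fun c => by rw [isGeo_iff]; rfl

theorem hyp4_iff {X : Type} (d : X → X → ℝ) (δ : ℝ) : MLS.Hyp4 d δ ↔ Hyp4 d δ := Iff.rfl

theorem hypG_iff {n : ℕ} (g : Frm (E n)) : MLS.HypG (toF g) ↔ HypG g := by
  unfold MLS.HypG HypG
  rw [gd_eq]
  exact Iff.rfl

theorem cocompact_iff {n : ℕ} (G : Type) [Group G] [MulAction G (E n)] :
    MLS.Cocompact n G ↔ Cocompact (E n) G :=
  ⟨fun h => ⟨h.smooth, h.free, h.proper, h.cocompact⟩,
    fun h => ⟨h.smooth, h.free, h.proper, h.cocompact⟩⟩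

theorem dac_eq {n : ℕ} {G : Type} [Group G] [MulAction G (E n)] (a : G) (x : E n) :
    MLS.dac a x = dac a x := rfl

theorem inv_iff {n : ℕ} (G : Type) [Group G] [MulAction G (E n)] (g : Frm (E n)) :
    MLS.Inv G (toF g) ↔ Inv G g := Iff.rfl

theorem gm_eq {n : ℕ} (g : Frm (E n)) (x : E n) : MLS.gm (toF g) x = gram ee g x := rfl

theorem dens_eq {n : ℕ} (g : Frm (E n)) (x : E n) : MLS.dens (toF g) x = dens ee g x := rfl

theorem tr_eq {n : ℕ} (g1 g2 : Frm (E n)) (x : E n) :
    MLS.tr (toF g1) (toF g2) x = tr ee g1 g2 x := rfl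

theorem cov_eq {n : ℕ} (g : MLS.Form n) (c X : ℝ → E n) (t : ℝ) :
    MLS.cov g c X t = cov (MLS.Ga g) c X t := rfl

theorem curv_eq (hGa : MLS.NcGa) {n : ℕ} (g : MLS.Form n) (hg : MLS.Riem g) (x u v w : E n) :
    MLS.Rm g x u v w = curv (MLS.Ga g) x u v w := by
  have hd : DifferentiableAt ℝ (MLS.Ga g) x := (hGa n g hg).1.differentiable (by simp) x
  unfold curv
  rw [fderiv_apply2 hd u v w, fderiv_apply2 hd v u w]
  rfl

theorem isJac_iff (hGa : MLS.NcGa) {n : ℕ} (g : MLS.Form n) (hg : MLS.Riem g) (c J : ℝ → E n) :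
    MLS.IsJac g c J ↔ IsJac (MLS.Ga g) c J := by
  constructor
  · intro h
    refine ⟨h.smooth, fun t => ?_⟩
    rw [← curv_eq hGa g hg]
    exact h.jac t
  · intro h
    refine ⟨h.smooth, fun t => ?_⟩
    rw [curv_eq hGa g hg]
    exact h.jac t

/-- the Levi-Civita connection of the two files -/
theorem leviCivita_Ga (hGa : MLS.NcGa) {n : ℕ} (g : Frm (E n)) (hg : Riem g) :
    LeviCivita g (MLS.Ga (toF g)) := by
  intro x u v w
  rw [g.fd, g.fd, g.fd]
  exact (hGa n (toF g) hg).2.2.2 x u v w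

theorem eq_of_val {V : Type} [NormedAddCommGroup V] [NormedSpace ℝ V] (g : Frm V) (hg : Riem g)
    (x a b : V) (h : ∀ w, g.val x a w = g.val x b w) : a = b := by
  by_contra hne
  have h1 := hg x (a - b) (sub_ne_zero.2 hne)
  have h2 : g.val x (a - b) (a - b) = g.val x a (a - b) - g.val x b (a - b) := by
    have h3 : g.val x (a - b) = g.val x a - g.val x b := (g.val x).map_sub a b
    calc g.val x (a - b) (a - b) = (g.val x a - g.val x b) (a - b) := by rw [← h3]
      _ = g.val x a (a - b) - g.val x b (a - b) := rfl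
  rw [h2, h, sub_self] at h1
  exact lt_irrefl _ h1

theorem leviCivita_iff (hGa : MLS.NcGa) {n : ℕ} (g : Frm (E n)) (hg : Riem g)
    (Γ : E n → E n →L[ℝ] E n →L[ℝ] E n) : LeviCivita g Γ ↔ Γ = MLS.Ga (toF g) := by
  constructor
  · intro h
    funext x
    refine ContinuousLinearMap.ext fun u => ContinuousLinearMap.ext fun v => ?_
    refine eq_of_val g hg x _ _ fun w => ?_
    rw [h x u v w, leviCivita_Ga hGa g hg x u v w]
  · rintro rfl
    exact leviCivita_Ga hGa g hg

theorem noConj_iff (hGa : MLS.NcGa) {n : ℕ} (g : Frm (E n)) (hg : Riem g) :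
    MLS.NoConj (toF g) ↔ NoConj g := by
  constructor
  · intro h Γ hΓ c hc J hJ
    rw [leviCivita_iff hGa g hg] at hΓ
    subst hΓ
    exact h c ((isGeo_iff g c).2 hc) J ((isJac_iff hGa (toF g) hg c J).2 hJ)
  · intro h c hc J hJ
    exact h _ (leviCivita_Ga hGa g hg) c ((isGeo_iff g c).1 hc) J
      ((isJac_iff hGa (toF g) hg c J).1 hJ)

end Pool.Agent.GM
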