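import Pool.Agent.Work.MP_25cd3b_gt.Gen.Metric

set_option autoImplicit false

/-!
# Lengths, distance, marked length spectrum, Gromov hyperbolicity
-/

open MeasureTheory Set Filter Topology
open scoped ContDiff

namespace Pool.Agent.GM

variable {V : Type} [NormedAddCommGroup V] [NormedSpace ℝ V]

/-- length of the tangent vector `v` at `x` -/
noncomputable def nrm (g : Frm V) (x v : V) : ℝ := Real.sqrt (g.val x v v)

/-- `PathLen g x y l`: some piecewise `C^1` curve from `x` to `y` has length `l` -/
inductive PathLen (g : Frm V) : V → V → ℝ → Prop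
  | refl (x : V) : PathLen g x x 0
  | cons (c : ℝ → V) (a b : ℝ) (y : V) (l : ℝ) (hc : ContDiff ℝ 1 c) (hab : a ≤ b)
      (h : PathLen g (c b) y l) :
      PathLen g (c a) y ((∫ t in a..b, nrm g (c t) (deriv c t)) + l)

/-- distance of the form -/
noncomputable def gd (g : Frm V) (x y : V) : ℝ := sInf {l | PathLen g x y l}

/-- marked length spectrum: infimum of the lengths of the curves from `x` to `a x`, that is of the
closed curves of the quotient in the free homotopy class of `a` -/
noncomputable def L {G : Type} [Group G] [MulAction G V] (g : Frm V) (a : G) : ℝ :=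
  sInf {l | ∃ x : V, PathLen g x (a • x) l}

/-- every unit speed geodesic of the universal covering is minimizing -/
def Minz (g : Frm V) : Prop :=
  ∀ c : ℝ → V, IsGeo g c → (∀ t, g.val (c t) (deriv c t) (deriv c t) = 1) →
    ∀ s t, gd g (c s) (c t) = |s - t|

/-- the four point condition of Gromov -/
def Hyp4 {X : Type} (d : X → X → ℝ) (δ : ℝ) : Prop :=
  ∀ x y z w, d x y + d z w ≤ max (d x z + d y w) (d x w + d y z) + δ

/-- the universal covering is Gromov hyperbolic -/
def HypG (g : Frm V) : Prop := ∃ δ, Hyp4 (gd g) δ

/-- matrix of the form in the basis `b` -/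
noncomputable def gram {n : ℕ} (b : Fin n → V) (g : Frm V) (x : V) : Matrix (Fin n) (Fin n) ℝ :=
  Matrix.of fun i j => g.val x (b i) (b j)

/-- density of the volume measure in the basis `b` -/
noncomputable def dens {n : ℕ} (b : Fin n → V) (g : Frm V) (x : V) : ℝ :=
  Real.sqrt (gram b g x).det

/-- trace of `g2` with respect to `g1` -/
noncomputable def tr {n : ℕ} (b : Fin n → V) (g1 g2 : Frm V) (x : V) : ℝ :=
  ((gram b g1 x)⁻¹ * gram b g2 x).trace

/-- `h` is the pull-back of `g` under the map `F` -/
def IsPull (F : V → V) (g h : Frm V) : Prop :=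
  ∀ x u v, h.val x u v = g.val (F x) (fderiv ℝ F x u) (fderiv ℝ F x v)

end Pool.Agent.GM
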