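import Mathlib

set_option autoImplicit false

/-!
# Riemannian metrics on a vector space, Levi-Civita connection, Jacobi fields, conjugate points

The definitions are written for a normed space `V` (later `V = R^n`), so that the printed terms are
small.  A closed manifold with universal covering `V = R^n` is `R^n / G`, where `G` acts on `R^n` by
diffeomorphisms, freely, properly discontinuously and with compact quotient; metrics of the manifold
are `G`-invariant metrics of `R^n`.
-/

open Set Filter Topology
open scoped ContDiff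

namespace Pool.Agent.GM

/-- a smooth field of symmetric positive semidefinite bilinear forms on `V` -/
@[ext] structure Frm (V : Type) [NormedAddCommGroup V] [NormedSpace ℝ V] where
  val : V → V →L[ℝ] V →L[ℝ] ℝ
  smooth : ContDiff ℝ ∞ val
  symm : ∀ x u v, val x u v = val x v u
  nonneg : ∀ x v, 0 ≤ val x v v

section

variable {V : Type} [NormedAddCommGroup V] [NormedSpace ℝ V]

/-- the form is a Riemannian metric -/
def Riem (g : Frm V) : Prop := ∀ x v, v ≠ 0 → 0 < g.val x v v

/-- geodesics (Euler-Lagrange equations of the energy) -/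
structure IsGeo (g : Frm V) (c : ℝ → V) : Prop where
  smooth : ContDiff ℝ 2 c
  el : ∀ t w, HasDerivAt (fun s => g.val (c s) (deriv c s) w)
    (1 / 2 * fderiv ℝ (fun y => g.val y (deriv c t) (deriv c t)) (c t) w) t

/-- `Γ` is the Levi-Civita connection of the metric (Christoffel symbols), the covariant derivative
being `D_u X = D X(u) + Γ(u, X)`: Koszul formula for constant vector fields -/
def LeviCivita (g : Frm V) (Γ : V → V →L[ℝ] V →L[ℝ] V) : Prop :=
  ∀ x u v w, g.val x (Γ x u v) w = 1 / 2 * (fderiv ℝ (fun y => g.val y v w) x u +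
    fderiv ℝ (fun y => g.val y u w) x v - fderiv ℝ (fun y => g.val y u v) x w)

/-- covariant derivative along the curve `c` of the vector field `X` -/
noncomputable def cov (Γ : V → V →L[ℝ] V →L[ℝ] V) (c X : ℝ → V) (t : ℝ) : V :=
  deriv X t + Γ (c t) (deriv c t) (X t)

/-- curvature tensor `R(u, v) w` -/
noncomputable def curv (Γ : V → V →L[ℝ] V →L[ℝ] V) (x u v w : V) : V :=
  fderiv ℝ (fun y => Γ y v w) x u - fderiv ℝ (fun y => Γ y u w) x v + Γ x u (Γ x v w) -
    Γ x v (Γ x u w)

/-- Jacobi fields along `c`: `D^2 J + R(J, c') c' = 0` -/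
structure IsJac (Γ : V → V →L[ℝ] V →L[ℝ] V) (c J : ℝ → V) : Prop where
  smooth : ContDiff ℝ 2 J
  jac : ∀ t, cov Γ c (cov Γ c J) t + curv Γ (c t) (J t) (deriv c t) (deriv c t) = 0

/-- no conjugate points: a Jacobi field along a geodesic which vanishes at two different points
vanishes identically -/
def NoConj (g : Frm V) : Prop :=
  ∀ Γ : V → V →L[ℝ] V →L[ℝ] V, LeviCivita g Γ → ∀ c : ℝ → V, IsGeo g c →
    ∀ J : ℝ → V, IsJac Γ c J → ∀ a b : ℝ, a ≠ b → J a = 0 → J b = 0 → ∀ t, J t = 0

/-- negative sectional curvature: `g (R(u, v) v, u) < 0` for independent `u`, `v` -/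
def NegCurv (g : Frm V) : Prop :=
  ∀ Γ : V → V →L[ℝ] V →L[ℝ] V, LeviCivita g Γ → ∀ x u v : V, LinearIndependent ℝ ![u, v] →
    g.val x (curv Γ x u v v) u < 0

end

section

variable (V : Type) [NormedAddCommGroup V] [NormedSpace ℝ V] (G : Type) [Group G] [MulAction G V]

/-- the group acts smoothly, freely, properly discontinuously and cocompactly -/
structure Cocompact : Prop where
  smooth : ∀ a : G, ContDiff ℝ ∞ (fun x : V => a • x)
  free : ∀ (a : G) (x : V), a • x = x → a = 1
  proper : ∀ K : Set V, IsCompact K → {a : G | ((fun x : V => a • x) '' K ∩ K).Nonempty}.Finite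
  cocompact : ∃ K : Set V, IsCompact K ∧ ∀ x : V, ∃ a : G, a • x ∈ K

variable {V}

/-- derivative of the action -/
noncomputable def dac {G : Type} [Group G] [MulAction G V] (a : G) (x : V) : V →L[ℝ] V :=
  fderiv ℝ (fun y : V => a • y) x

/-- the form is invariant under the group -/
def Inv (g : Frm V) : Prop :=
  ∀ (a : G) (x u v : V), g.val (a • x) (dac a x u) (dac a x v) = g.val x u v

end

end Pool.Agent.GM
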